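import Pool.Agent.Helper4.T7.StD

/-!
# Project T7 (levels `7·5^n`), module TRF: values of the leading forms on the binomial basis
-/

set_option autoImplicit false

namespace Pool.Agent.Helper71.T7

open Pool.Agent.Helper4.T7
open Pool.Agent.Helper14.W5 (tr5 Fn5 Tm opL op5 mulL sclL Gd Wd5 dX dY Lw cS M7 nS bb5 S5PlA S5Trm S5Low0 S5Nfa S5Nf S5Exp S5Lw1 S5Bb)

/-! ### Identities for commuting elements -/

section comm

private theorem tr_ring {E : Type} [Ring E] [Algebra (ZMod 5) E] (D Y : E) (h : D * Y = Y * D) :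
    ∃ (S : Type) (_ : CommRing S) (_ : Algebra (ZMod 5) S) (φ : S →ₐ[ZMod 5] E) (x y : S), φ x = D ∧ φ y = Y := by
  have hc : ∀ a ∈ ({D, Y} : Set E), ∀ b ∈ ({D, Y} : Set E), a * b = b * a := by
    rintro a (rfl | rfl) b (rfl | rfl)
    · rfl
    · exact h
    · exact h.symm
    · rfl
  have hm : IsMulCommutative (Algebra.adjoin (ZMod 5) ({D, Y} : Set E)) := Algebra.isMulCommutative_adjoin (ZMod 5) hc
  let c : CommRing (Algebra.adjoin (ZMod 5) ({D, Y} : Set E)) :=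
    { (inferInstance : Ring (Algebra.adjoin (ZMod 5) ({D, Y} : Set E))) with
      mul_comm := fun a b => hm.is_comm.comm a b }
  exact ⟨Algebra.adjoin (ZMod 5) {D, Y}, c, inferInstance, (Algebra.adjoin (ZMod 5) {D, Y}).val,
    ⟨D, Algebra.subset_adjoin (by simp)⟩, ⟨Y, Algebra.subset_adjoin (by simp)⟩, rfl, rfl⟩

variable {S : Type} [CommRing S] [Algebra (ZMod 5) S]

/-- the lowest term of a form -/
private theorem sum_low (x y : S) (q : ℕ → ZMod 5) (n l : ℕ) (hl : l ≤ n) (hq : ∀ i < l, q i = 0) :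
    ∃ R : S, ∑ i ∈ Finset.range (n + 1), q i • (x ^ (n - i) * y ^ i) =
      q l • (x ^ (n - l) * y ^ l) + R * y ^ (l + 1) := by
  obtain ⟨m, rfl⟩ : ∃ m, n = l + m := ⟨n - l, by omega⟩
  refine ⟨∑ i ∈ Finset.range m, q (l + 1 + i) • (x ^ (l + m - (l + 1 + i)) * y ^ i), ?_⟩
  rw [show l + m + 1 = (l + 1) + m by ring, Finset.sum_range_add, Finset.sum_range_succ,
    Finset.sum_mul]
  have e0 : ∑ i ∈ Finset.range l, q i • (x ^ (l + m - i) * y ^ i) = 0 := by
    refine Finset.sum_eq_zero fun i hi => ?_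
    rw [hq i (Finset.mem_range.1 hi), zero_smul]
  rw [e0, zero_add]
  congr 1
  refine Finset.sum_congr rfl fun i _ => ?_
  rw [smul_mul_assoc, mul_assoc, ← pow_add]
  congr 3
  ring

private theorem pw (x u y : S) (j : ℕ) : ∃ R : S, (x + u * y) ^ j = x ^ j + R * y := by
  have h := sub_dvd_pow_sub_pow (x + u * y) x j
  rw [add_sub_cancel_left] at h
  obtain ⟨R, hR⟩ := h
  refine ⟨u * R, ?_⟩
  linear_combination hR

private theorem key (x y M R0 : S) (a : ZMod 5) (n l i j : ℕ)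
    (hM : M = a • (x ^ n * y ^ l) + R0 * y ^ (l + 1)) : ∃ R : S,
    M * (x * y) ^ i * (x ^ 5 * y + (2 : ZMod 5) • (x ^ 3 * y ^ 3) + x * y ^ 5) ^ j =
      a • (x ^ (n + i + 5 * j) * y ^ (i + j + l)) + R * y ^ (i + j + l + 1) := by
  have e : x ^ 5 * y + (2 : ZMod 5) • (x ^ 3 * y ^ 3) + x * y ^ 5 =
      x * y * (x ^ 4 + (algebraMap (ZMod 5) S 2 * (x ^ 2 * y) + y ^ 3) * y) := by
    rw [Algebra.smul_def]
    ring
  obtain ⟨R', hR'⟩ := pw (x ^ 4) (algebraMap (ZMod 5) S 2 * (x ^ 2 * y) + y ^ 3) y j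
  refine ⟨R0 * x ^ (i + j) * ((x ^ 4) ^ j + R' * y) + algebraMap (ZMod 5) S a * x ^ (n + i + j) * R', ?_⟩
  rw [e, mul_pow (x * y) _ j, hR', hM]
  simp only [Algebra.smul_def]
  generalize algebraMap (ZMod 5) S a = a'
  ring

end comm

section forms

variable {r s : ℕ}

private theorem low_le {c : ℕ} (hc : c ≤ 7) (f : Fin 5) : lwQ c f.val ≤ nOQ c := by
  interval_cases c <;> fin_cases f <;> decide

private theorem low_zero {c : ℕ} (hc : c ≤ 7) (f : Fin 5) : ∀ i < lwQ c f.val, qOQ c f.val i = 0 := by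
  interval_cases c <;> fin_cases f <;> decide

private theorem low_all {c : ℕ} (hc : c ≤ 7) (f : Fin 5) (h : qOQ c f.val (lwQ c f.val) = 0) :
    ∀ i < nOQ c + 1, qOQ c f.val i = 0 := by
  revert h
  interval_cases c <;> fin_cases f <;> decide

private theorem form (hl : S5Low0) (c i j : ℕ) (f : Fin 5) (hc : c ≤ 7) :
    ∃ R : Module.End (ZMod 5) (Fn5 (5 ^ r) (5 ^ s)), MoQ c f.val * QoQ ^ i * LoQ ^ j =
      ((qOQ c f.val (lwQ c f.val) : ℤ) : ZMod 5) •
        (dX ^ (nOQ c - lwQ c f.val + i + 5 * j) * dY ^ (i + j + lwQ c f.val)) +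
      R * dY ^ (i + j + lwQ c f.val + 1) := by
  obtain ⟨S, _, _, φ, x, y, hx, hy⟩ := tr_ring (dX : Module.End (ZMod 5) (Fn5 (5 ^ r) (5 ^ s))) dY
    (hl r s).2.2.2.2.2.2.2.2.1
  obtain ⟨R0, hR0⟩ := sum_low x y (fun k => ((qOQ c f.val k : ℤ) : ZMod 5)) (nOQ c) (lwQ c f.val)
    (low_le hc f) (fun k hk => by rw [low_zero hc f k hk, Int.cast_zero])
  obtain ⟨R, hR⟩ := key x y _ _ _ (nOQ c - lwQ c f.val) (lwQ c f.val) i j hR0
  refine ⟨φ R, ?_⟩
  have h := congrArg φ hR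
  have e : (MoQ c f.val : Module.End (ZMod 5) (Fn5 (5 ^ r) (5 ^ s))) =
      φ (∑ i ∈ Finset.range (nOQ c + 1), ((qOQ c f.val i : ℤ) : ZMod 5) • (x ^ (nOQ c - i) * y ^ i)) := by
    unfold MoQ
    rw [map_sum]
    apply Finset.sum_congr rfl
    intro k _
    rw [map_smul, map_mul, map_pow, map_pow, hx, hy]
  rw [map_mul, map_mul, ← e] at h
  simp only [map_pow, map_add, map_mul, map_smul, hx, hy] at h
  exact h

/-! ### Values on the binomial basis -/

private theorem dy_pow (hb : S5Bb) (p q m : ℕ) (hp : p < 5 ^ r) (hq : m + q < 5 ^ s) :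
    (dY ^ m : Module.End (ZMod 5) (Fn5 (5 ^ r) (5 ^ s))) (bb5 p (m + q)) = bb5 p q := by
  induction m with
  | zero =>
    rw [pow_zero, zero_add]
    rfl
  | succ m ih =>
    have h1 : m + 1 + q = (m + q) + 1 := by ring
    rw [pow_succ, Module.End.mul_apply, h1,
      (hb r s).2.2.1 p (m + q) hp (by omega)]
    exact ih (by omega)

private theorem dx_pow (hb : S5Bb) (p q m : ℕ) (hq : q < 5 ^ s) (hp : m + p < 5 ^ r) :
    (dX ^ m : Module.End (ZMod 5) (Fn5 (5 ^ r) (5 ^ s))) (bb5 (m + p) q) = bb5 p q := by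
  induction m with
  | zero =>
    rw [pow_zero, zero_add]
    rfl
  | succ m ih =>
    have h1 : m + 1 + p = (m + p) + 1 := by ring
    rw [pow_succ, Module.End.mul_apply, h1,
      (hb r s).2.1 (m + p) q (by omega) hq]
    exact ih (by omega)

private theorem dy_kill (hb : S5Bb) (p q m : ℕ) (hp : p < 5 ^ r) (hq : q < 5 ^ s) (h : q < m) :
    (dY ^ m : Module.End (ZMod 5) (Fn5 (5 ^ r) (5 ^ s))) (bb5 p q) = 0 := by
  obtain ⟨c, rfl⟩ : ∃ c, m = c + (1 + q) := ⟨m - (1 + q), by omega⟩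
  rw [pow_add, pow_add, Module.End.mul_apply, Module.End.mul_apply]
  have h1 := dy_pow (r := r) (s := s) hb p 0 q hp (by omega)
  rw [add_zero] at h1
  rw [h1, pow_one, (hb r s).2.2.2.2.1 p hp, map_zero]

private theorem dx_kill (hb : S5Bb) (p q m : ℕ) (hp : p < 5 ^ r) (hq : q < 5 ^ s) (h : p < m) :
    (dX ^ m : Module.End (ZMod 5) (Fn5 (5 ^ r) (5 ^ s))) (bb5 p q) = 0 := by
  obtain ⟨c, rfl⟩ : ∃ c, m = c + (1 + p) := ⟨m - (1 + p), by omega⟩
  rw [pow_add, pow_add, Module.End.mul_apply, Module.End.mul_apply]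
  have h1 := dx_pow (r := r) (s := s) hb 0 q p hq (by omega)
  rw [add_zero] at h1
  rw [h1, pow_one, (hb r s).2.2.2.1 q hq, map_zero]

private theorem kil (hb : S5Bb) (O : Module.End (ZMod 5) (Fn5 (5 ^ r) (5 ^ s))) (A B m : ℕ)
    (hA : A < 5 ^ r) (hB : B < 5 ^ s) (h : B < m) :
    (O * dY ^ m : Module.End (ZMod 5) (Fn5 (5 ^ r) (5 ^ s))) (bb5 A B) = 0 := by
  rw [Module.End.mul_apply, dy_kill hb A B m hA hB h, map_zero]

/-- value of the monomial of the point itself -/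
private theorem val (hb : S5Bb) (A B : ℕ) (hA : A < 5 ^ r) (hB : B < 5 ^ s) :
    (dX ^ A * dY ^ B : Module.End (ZMod 5) (Fn5 (5 ^ r) (5 ^ s))) (bb5 A B) = bb5 0 0 := by
  have h1 := dy_pow (r := r) (s := s) hb A 0 B hA (by omega)
  have h2 := dx_pow (r := r) (s := s) hb 0 0 A (by omega) (by omega)
  rw [add_zero] at h1 h2
  rw [Module.End.mul_apply, h1, h2]

private theorem one : ((bb5 0 0 : Fn5 (5 ^ r) (5 ^ s)) 0 0) = 1 := by simp [bb5]

/-! ### Degrees -/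

private theorem lw_zero (k : ℤ) : Lw (0 : Module.End (ZMod 5) (Fn5 (5 ^ r) (5 ^ s))) k :=
  fun _ _ _ => Submodule.zero_mem _

private theorem lw_pow (hl : S5Low0) {O : Module.End (ZMod 5) (Fn5 (5 ^ r) (5 ^ s))} {k : ℤ} (h : Lw O k) (i : ℕ) :
    Lw (O ^ i) ((i : ℤ) * k) := by
  induction i with
  | zero =>
    rw [pow_zero, Nat.cast_zero, zero_mul]
    exact (hl r s).2.2.2.2.2.1
  | succ i ih =>
    have h1 : ((i + 1 : ℕ) : ℤ) * k = (i : ℤ) * k + k := by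
      push_cast
      ring
    rw [pow_succ, h1]
    exact (hl r s).1 _ _ _ _ ih h

private theorem lw_mul (hl : S5Low0) {O O' : Module.End (ZMod 5) (Fn5 (5 ^ r) (5 ^ s))} {k k' k'' : ℤ} (h : Lw O k)
    (h' : Lw O' k') (e : k + k' = k'') : Lw (O * O') k'' := by
  rw [← e]
  exact (hl r s).1 _ _ _ _ h h'

private theorem lw_add (hl : S5Low0) {O O' : Module.End (ZMod 5) (Fn5 (5 ^ r) (5 ^ s))} {k : ℤ} (h : Lw O k)
    (h' : Lw O' k) : Lw (O + O') k := (hl r s).2.1 _ _ _ h h'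

private theorem lw_smul (hl : S5Low0) (c : ZMod 5) {O : Module.End (ZMod 5) (Fn5 (5 ^ r) (5 ^ s))} {k : ℤ}
    (h : Lw O k) : Lw (c • O) k := (hl r s).2.2.1 _ _ _ h

private theorem lw_x (hl : S5Low0) (i : ℕ) : Lw (dX ^ i : Module.End (ZMod 5) (Fn5 (5 ^ r) (5 ^ s))) i := by
  have h := lw_pow hl (hl r s).2.2.2.2.2.2.1 i
  rwa [mul_one] at h

private theorem lw_y (hl : S5Low0) (i : ℕ) : Lw (dY ^ i : Module.End (ZMod 5) (Fn5 (5 ^ r) (5 ^ s))) i := by
  have h := lw_pow hl (hl r s).2.2.2.2.2.2.2.1 i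
  rwa [mul_one] at h

private theorem lw_x1 (hl : S5Low0) : Lw (dX : Module.End (ZMod 5) (Fn5 (5 ^ r) (5 ^ s))) 1 :=
  (hl r s).2.2.2.2.2.2.1

private theorem lw_y1 (hl : S5Low0) : Lw (dY : Module.End (ZMod 5) (Fn5 (5 ^ r) (5 ^ s))) 1 :=
  (hl r s).2.2.2.2.2.2.2.1

private theorem lw_Q (hl : S5Low0) : Lw (QoQ : Module.End (ZMod 5) (Fn5 (5 ^ r) (5 ^ s))) 2 :=
  lw_mul hl (lw_x1 hl) (lw_y1 hl) (by norm_num)

private theorem lw_L (hl : S5Low0) : Lw (LoQ : Module.End (ZMod 5) (Fn5 (5 ^ r) (5 ^ s))) 6 :=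
  lw_add hl (lw_add hl (lw_mul hl (lw_x hl 5) (lw_y1 hl) (by norm_num))
    (lw_smul hl _ (lw_mul hl (lw_x hl 3) (lw_y hl 3) (by norm_num))))
    (lw_mul hl (lw_x1 hl) (lw_y hl 5) (by norm_num))

private theorem lw_sum (hl : S5Low0) {ι : Type} (T : Finset ι) (O : ι → Module.End (ZMod 5) (Fn5 (5 ^ r) (5 ^ s)))
    (k : ℤ) (h : ∀ t ∈ T, Lw (O t) k) : Lw (∑ t ∈ T, O t) k := by
  classical
  induction T using Finset.induction_on with
  | empty =>
    rw [Finset.sum_empty]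
    exact lw_zero k
  | insert a T ha ih =>
    rw [Finset.sum_insert ha]
    exact lw_add hl (h a (Finset.mem_insert_self a T)) (ih fun t ht => h t (Finset.mem_insert_of_mem ht))

private theorem lw_M (hl : S5Low0) (c f : ℕ) : Lw (MoQ c f : Module.End (ZMod 5) (Fn5 (5 ^ r) (5 ^ s))) (nOQ c) := by
  unfold MoQ
  apply lw_sum hl
  intro k hk
  apply lw_smul hl
  apply lw_mul hl (lw_x hl _) (lw_y hl _)
  have h1 : k ≤ nOQ c := by
    have := Finset.mem_range.1 hk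
    omega
  push_cast [Nat.cast_sub h1]
  ring

end forms

/-- TRF. -/
theorem hTrf (hl : S5Low0) (hb : S5Bb) : TTrf := by
  intro r s
  refine ⟨?_, ?_, ?_⟩
  · intro c i j f hc
    have e : ((dgQ c i j : ℕ) : ℤ) = (nOQ c : ℤ) + (i : ℤ) * 2 + (j : ℤ) * 6 := by
      unfold dgQ nOQ
      push_cast
      ring
    rw [e]
    exact lw_mul hl (lw_mul hl (lw_M hl c f.val) (lw_pow hl (lw_Q hl) i) rfl) (lw_pow hl (lw_L hl) j) rfl
  · intro c f hc h
    unfold MoQ
    refine Finset.sum_eq_zero fun i hi => ?_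
    rw [low_all hc f h i (Finset.mem_range.1 hi), Int.cast_zero, zero_smul]
  · intro c i j A B f hc hA hB hAB
    obtain ⟨R, hR⟩ := form (r := r) (s := s) hl c i j f hc
    have hle := low_le hc f
    have hd : A + B = nOQ c + 2 * i + 6 * j := by
      rw [hAB]
      rfl
    rw [hR]
    simp only [LinearMap.add_apply, LinearMap.smul_apply, Pi.add_apply, Pi.smul_apply]
    refine ⟨fun h => ?_, fun h => ?_⟩
    · rw [kil hb _ A B _ hA hB h, kil hb _ A B _ hA hB (by omega)]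
      simp
    · have hA' : nOQ c - lwQ c f.val + i + 5 * j = A := by omega
      rw [hA', ← h, val hb A B hA hB, kil hb _ A B _ hA hB (by omega), one]
      simp

end Pool.Agent.Helper71.T7
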